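import Pool.Agent.Work.MP_64ea0f_cs.InterfaceG1

set_option autoImplicit false

/-! Block DEEPG: deep subgroups exist in general (adapted from helper29's DEEP). -/

namespace Pool.CS

theorem deepg_thm (hBAS : Stmt_BAS) (hFINO : Stmt_FINO) (hINFO : Stmt_INFO) (hRSF : Stmt_RSF)
    (hVX1 : Stmt_VX1) (hPR2 : Stmt_PR2) : Stmt_DEEPG := by
  intro D
  obtain ⟨hsymm, -, -, -, -, -, -, hRtw, -, -, hsq, hconj, hneg, -, hinj, -⟩ := hBAS D
  obtain ⟨-, -, -, -, -, -, hMn, -, hanti, -, -⟩ := hVX1 D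
  obtain ⟨N0, hN0n, hN0f, hN0t, -, -⟩ := hRSF D ∅ Set.finite_empty (Set.notMem_empty _)
  obtain ⟨P, hPfin, hP⟩ := hPR2 D
  set k0 := N0.index with hk0
  have hk0pos : 0 < k0 := Nat.pos_of_ne_zero hN0f.index_ne_zero
  -- elements of finite order
  have hord : ∀ (y : D.W) (k : ℕ), 0 < k → y ^ k = 1 → y ^ k0 = 1 := by
    intro y k hk hy
    refine hN0t (y ^ k0) (Subgroup.pow_index_mem N0 y) k hk ?_
    rw [← pow_mul, mul_comm, pow_mul, hy, one_pow]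
  set E : Set D.W := {y | y ≠ 1 ∧ ∃ p ∈ P,
    (y = D.rf p.1 * D.rf p.2 ∨ y = (D.rf p.1 * D.rf p.2) ^ k0)} with hE
  have hEfin : E.Finite := by
    have h1 : ((fun p : D.V × D.V => D.rf p.1 * D.rf p.2) '' P ∪
        (fun p : D.V × D.V => (D.rf p.1 * D.rf p.2) ^ k0) '' P).Finite :=
      (hPfin.image _).union (hPfin.image _)
    refine h1.subset ?_
    rintro y ⟨-, p, hp, hy⟩
    rcases hy with hy | hy
    · exact Or.inl ⟨p, hp, hy.symm⟩
    · exact Or.inr ⟨p, hp, hy.symm⟩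
  have hE1 : (1 : D.W) ∉ E := fun h => h.1 rfl
  obtain ⟨H, hHn, hHf, hHt, hHi, hHE⟩ := hRSF D E hEfin hE1
  -- the key fact: products of two reflections in minimal roots of a vertex
  have key : ∀ x, D.Vx x → ∀ φ ψ, D.Mn x φ → D.Mn x ψ →
      (D.rf φ * D.rf ψ ∈ H → D.rf φ * D.rf ψ = 1) ∧
      ((D.rf φ * D.rf ψ) ^ k0 ∈ H → (D.rf φ * D.rf ψ) ^ k0 = 1) := by
    intro x hx φ ψ hφ hψ
    obtain ⟨w, hw⟩ := hP x hx φ ψ hφ hψ
    have hφR : φ ∈ D.Rt := hx.sub hφ.1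
    have hψR : ψ ∈ D.Rt := hx.sub hψ.1
    have hprod : D.rf (D.ρ w φ) * D.rf (D.ρ w ψ) = w * (D.rf φ * D.rf ψ) * w⁻¹ := by
      rw [hconj φ hφR w, hconj ψ hψR w]; group
    constructor
    · intro h
      by_contra hne
      have h1 : w * (D.rf φ * D.rf ψ) * w⁻¹ ∈ H := hHn.conj_mem _ h w
      refine hHE _ ?_ h1
      refine ⟨?_, _, hw, Or.inl hprod.symm⟩
      intro h2
      apply hne
      rwa [conj_eq_one_iff] at h2
    · intro h
      by_contra hne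
      have h1 : w * (D.rf φ * D.rf ψ) ^ k0 * w⁻¹ ∈ H := hHn.conj_mem _ h w
      refine hHE _ ?_ h1
      refine ⟨?_, _, hw, Or.inr ?_⟩
      · intro h2
        apply hne
        rwa [conj_eq_one_iff] at h2
      · rw [hprod, conj_pow]
  refine ⟨H, hHn, hHf, hHt, hHi, ?_, ?_⟩
  · -- self
    rintro x hx φ ψ hφ hψ ⟨h, hh, hψh⟩
    have hφR : φ ∈ D.Rt := hx.sub hφ.1
    have hψR : ψ ∈ D.Rt := hx.sub hψ.1
    have hrf : D.rf ψ = h * D.rf φ * h⁻¹ := by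
      rcases hψh with h1 | h1
      · rw [h1, hconj φ hφR h]
      · rw [h1, hneg _ (hRtw φ hφR h), hconj φ hφR h]
    have hmem : D.rf φ * D.rf ψ ∈ H := by
      have h2 : D.rf φ * D.rf ψ = D.rf φ * h * (D.rf φ)⁻¹ * h⁻¹ := by
        have h3 : (D.rf φ)⁻¹ = D.rf φ := inv_eq_of_mul_eq_one_left (hsq φ hφR)
        rw [hrf, h3]; group
      rw [h2]
      exact H.mul_mem (hHn.conj_mem h hh _) (H.inv_mem hh)
    have h4 := (key x hx φ ψ hφ hψ).1 hmem
    have h5 : D.rf φ = D.rf ψ := by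
      have h6 := hsq ψ hψR
      calc D.rf φ = D.rf φ * (D.rf ψ * D.rf ψ) := by rw [h6, mul_one]
        _ = D.rf ψ := by rw [← mul_assoc, h4, one_mul]
    rcases hinj φ hφR ψ hψR h5 with h6 | h6
    · exact h6
    · exact absurd (h6 ▸ hψ.1) (hanti x hx φ hφ.1)
  · -- osc
    rintro x hx φ ψ hφ hψ hne ⟨h, hh, hB⟩
    have hφR : φ ∈ D.Rt := hx.sub hφ.1
    have hψR : ψ ∈ D.Rt := hx.sub hψ.1
    obtain ⟨k, hk, hk1⟩ := hFINO D φ hφR (D.ρ h ψ) (hRtw ψ hψR h) hB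
    have h1 := hord _ k hk hk1
    rw [hconj ψ hψR h] at h1
    have hmem : (D.rf φ * D.rf ψ) ^ k0 ∈ H := by
      have := hHn
      rw [← QuotientGroup.eq_one_iff]
      have h2 : ((h : D.W) : D.W ⧸ H) = 1 := (QuotientGroup.eq_one_iff h).mpr hh
      have h3 := congrArg (fun y : D.W => (y : D.W ⧸ H)) h1
      simp only [QuotientGroup.mk_pow, QuotientGroup.mk_mul, QuotientGroup.mk_inv, h2,
        QuotientGroup.mk_one, one_mul, inv_one, mul_one] at h3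
      simpa only [QuotientGroup.mk_pow, QuotientGroup.mk_mul] using h3
    have h4 := (key x hx φ ψ hφ hψ).2 hmem
    by_contra hB'
    push Not at hB'
    have hne' : φ ≠ -ψ := by
      intro h5
      exact hanti x hx ψ hψ.1 (h5 ▸ hφ.1)
    exact hINFO D φ hφR ψ hψR hB' hne hne' k0 hk0pos h4

end Pool.CS
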